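import Pool.Agent.R974.AT.Defs
import Pool.Agent.R228.BS.Sup

/-!
# AT-SUPM: second and fourth moments of the running maximum of a Brownian motion (helper771)

The dyadic chaining variable of `Pool.Agent.R228.BS.Sup` with `q = 4`.
-/

set_option autoImplicit false

open MeasureTheory ProbabilityTheory Filter Topology Set
open scoped ENNReal NNReal

universe u

namespace R771.AT

open Pool.Agent.R228.BS Pool.Agent.R974.Span R974.AT

/-- the constant -/
noncomputable def c0 : ℝ≥0∞ := mom 4 * (1 - ENNReal.ofReal (9 / 10))⁻¹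

lemma c0_lt : c0 < ∞ := by
  unfold c0
  refine ENNReal.mul_lt_top (mom_lt 4) ?_
  apply ENNReal.inv_lt_top.2
  rw [tsub_pos_iff_lt, ENNReal.ofReal_lt_one]
  norm_num

lemma lint_zet4 {Ω : Type*} [MeasurableSpace Ω] {P : Measure Ω} {B : ℝ≥0 → Ω → ℝ}
    (hB : IsPreBrownianReal B P) (T : ℝ≥0) :
    ∫⁻ ω, zet B T 4 ω ∂P ≤ ENNReal.ofReal ((T : ℝ) ^ 2) * c0 := by
  have hq : 4 ≤ 4 := le_rfl
  unfold zet
  rw [lintegral_tsum (fun n ↦ (aem_incr hB T 4 n).const_mul _)]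
  have key : ∀ n : ℕ, ∫⁻ ω, ENNReal.ofReal (((10 / 9 : ℝ) ^ n) ^ 4) * incr B T 4 n ω ∂P ≤
      ENNReal.ofReal (√(T : ℝ) ^ 4) * mom 4 * ENNReal.ofReal (9 / 10) ^ n := by
    intro n
    rw [lintegral_const_mul'' _ (aem_incr hB T 4 n), lint_incr hB]
    have h1 : ENNReal.ofReal (((10 / 9 : ℝ) ^ n) ^ 4) *
        (2 ^ n * (ENNReal.ofReal (√((T : ℝ) / 2 ^ n) ^ 4) * mom 4)) =
        ENNReal.ofReal (((10 / 9 : ℝ) ^ n) ^ 4 * (2 ^ n * √((T : ℝ) / 2 ^ n) ^ 4)) * mom 4 := by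
      rw [ENNReal.ofReal_mul (by positivity), ENNReal.ofReal_mul (by positivity),
        ENNReal.ofReal_pow (by norm_num : (0 : ℝ) ≤ 2)]
      simp only [ENNReal.ofReal_ofNat]
      ring
    rw [h1, mul_right_comm, ← ENNReal.ofReal_pow (by norm_num), ← ENNReal.ofReal_mul (by positivity)]
    refine mul_le_mul' (ENNReal.ofReal_le_ofReal ?_) le_rfl
    have h2 : √((T : ℝ) / 2 ^ n) ^ 4 = ((T : ℝ) / 2 ^ n) ^ 2 := by
      calc √((T : ℝ) / 2 ^ n) ^ 4 = (√((T : ℝ) / 2 ^ n) ^ 2) ^ 2 := by ring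
        _ = _ := by rw [Real.sq_sqrt (by positivity)]
    have h3 : √(T : ℝ) ^ 4 = (T : ℝ) ^ 2 := by
      calc √(T : ℝ) ^ 4 = (√(T : ℝ) ^ 2) ^ 2 := by ring
        _ = _ := by rw [Real.sq_sqrt (by positivity)]
    rw [h2, h3]
    have h4 : ((10 / 9 : ℝ) ^ n) ^ 4 * (2 ^ n * ((T : ℝ) / 2 ^ n) ^ 2) =
        (T : ℝ) ^ 2 * ((10 / 9 : ℝ) ^ 4 / 2) ^ n := by
      have h5 : (2 : ℝ) ^ n ≠ 0 := by positivity
      have h6 : ((10 / 9 : ℝ) ^ n) ^ 4 = ((10 / 9 : ℝ) ^ 4) ^ n := by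
        rw [← pow_mul, ← pow_mul, mul_comm]
      rw [h6, div_pow (T : ℝ), div_pow ((10 / 9 : ℝ) ^ 4)]
      field_simp
    rw [h4]
    refine mul_le_mul_of_nonneg_left ?_ (by positivity)
    exact pow_le_pow_left₀ (by norm_num) (by norm_num) n
  refine (ENNReal.tsum_le_tsum key).trans ?_
  rw [ENNReal.tsum_mul_left, ENNReal.tsum_geometric]
  have h3 : √(T : ℝ) ^ 4 = (T : ℝ) ^ 2 := by
    calc √(T : ℝ) ^ 4 = (√(T : ℝ) ^ 2) ^ 2 := by ring
      _ = _ := by rw [Real.sq_sqrt (by positivity)]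
  rw [h3, mul_assoc]
  exact le_rfl

lemma path_bound {Ω : Type*} {B : ℝ≥0 → Ω → ℝ} (T : ℝ≥0) (ω : Ω)
    (hc : Continuous (fun t => B t ω)) (h0 : B 0 ω = 0) (hz : zet B T 4 ω ≠ ∞) (t : ℝ≥0)
    (ht : t ≤ T) : |B t ω| ≤ 10 * (zet B T 4 ω).toReal ^ (((4 : ℕ) : ℝ)⁻¹) := by
  set z := (zet B T 4 ω).toReal ^ (((4 : ℕ) : ℝ)⁻¹) with hzd
  have hz0 : 0 ≤ z := by positivity
  have key : ∀ N m : ℕ, m ≤ 2 ^ N → |B (dyp T N m) ω| ≤ 10 * z := by
    intro N m hm
    have := chain T z ω (fun n k hk ↦ incr_le T 4 (by norm_num) ω hz n k hk) N m hm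
    rw [h0, abs_zero, zero_add] at this
    exact this.trans (geom_le z hz0 _)
  rcases eq_or_ne T 0 with rfl | hT
  · have : t = 0 := le_antisymm ht zero_le
    rw [this, h0, abs_zero]
    positivity
  · have hTp : (0 : ℝ) < T := by positivity
    have hlim : Tendsto (fun N : ℕ ↦ dyp T N ⌊(t : ℝ) / T * 2 ^ N⌋₊) atTop (𝓝 t) := by
      rw [← NNReal.tendsto_coe]
      have e : ∀ N : ℕ, ((dyp T N ⌊(t : ℝ) / T * 2 ^ N⌋₊ : ℝ≥0) : ℝ) =
          T * (⌊(t : ℝ) / T * 2 ^ N⌋₊ / 2 ^ N) := by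
        intro N; simp [dyp]; ring
      simp only [e]
      have h1 : Tendsto (fun N : ℕ ↦ (⌊(t : ℝ) / T * 2 ^ N⌋₊ : ℝ) / 2 ^ N) atTop
          (𝓝 ((t : ℝ) / T)) := by
        have := tendsto_nat_floor_mul_div_atTop (R := ℝ) (a := (t : ℝ) / T) (by positivity)
        exact this.comp (tendsto_pow_atTop_atTop_of_one_lt (by norm_num : (1 : ℝ) < 2))
      have h2 := h1.const_mul (T : ℝ)
      rwa [mul_div_cancel₀ _ hTp.ne'] at h2
    have hlim2 : Tendsto (fun N : ℕ ↦ |B (dyp T N ⌊(t : ℝ) / T * 2 ^ N⌋₊) ω|) atTop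
        (𝓝 |B t ω|) := ((hc.tendsto t).comp hlim).abs
    refine le_of_tendsto hlim2 (Filter.Eventually.of_forall fun N ↦ key N _ ?_)
    apply Nat.floor_le_of_le
    push_cast
    have : (t : ℝ) / T ≤ 1 := by
      rw [div_le_one hTp]; exact_mod_cast ht
    calc (t : ℝ) / T * 2 ^ N ≤ 1 * 2 ^ N := by gcongr
      _ = _ := one_mul _

lemma osc_nonneg (w : ℝ≥0 → ℝ) (δ : ℝ≥0) : 0 ≤ osc w δ :=
  Real.iSup_nonneg fun _ => abs_nonneg _

lemma osc_four {Ω : Type*} {B : ℝ≥0 → Ω → ℝ} (T : ℝ≥0) (ω : Ω)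
    (hc : Continuous (fun t => B t ω)) (h0 : B 0 ω = 0) :
    ENNReal.ofReal (osc (fun t => B t ω) T ^ 4) ≤ ENNReal.ofReal (10 ^ 4) * zet B T 4 ω := by
  rcases eq_or_ne (zet B T 4 ω) ∞ with hz | hz
  · rw [hz, ENNReal.mul_top]
    · exact le_top
    · simp
  · have h1 : osc (fun t => B t ω) T ≤ 10 * (zet B T 4 ω).toReal ^ (((4 : ℕ) : ℝ)⁻¹) :=
      ciSup_le fun n => path_bound T ω hc h0 hz _ (min_le_right _ _)
    have h2 : osc (fun t => B t ω) T ^ 4 ≤ 10 ^ 4 * (zet B T 4 ω).toReal := by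
      calc osc (fun t => B t ω) T ^ 4
          ≤ (10 * (zet B T 4 ω).toReal ^ (((4 : ℕ) : ℝ)⁻¹)) ^ 4 :=
            pow_le_pow_left₀ (osc_nonneg _ _) h1 4
        _ = _ := by
          rw [mul_pow, Real.rpow_inv_natCast_pow ENNReal.toReal_nonneg (by norm_num)]
    calc ENNReal.ofReal (osc (fun t => B t ω) T ^ 4)
        ≤ ENNReal.ofReal (10 ^ 4 * (zet B T 4 ω).toReal) := ENNReal.ofReal_le_ofReal h2
      _ = ENNReal.ofReal (10 ^ 4) * ENNReal.ofReal (zet B T 4 ω).toReal :=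
          ENNReal.ofReal_mul (by positivity)
      _ ≤ _ := by gcongr; exact ENNReal.ofReal_toReal_le

theorem supm : S_SUPM.{u} := by
  set K0 : ℝ := 10 ^ 4 * c0.toReal with hK0
  have hK0n : 0 ≤ K0 := by positivity
  refine ⟨K0 + 1, by linarith, ?_⟩
  intro Ω _ P B hB δ
  have := hB.prob
  have h4 : ∫⁻ ω, ENNReal.ofReal (osc (fun t => B t ω) δ ^ 4) ∂P ≤
      ENNReal.ofReal (K0 * (δ : ℝ) ^ 2) := by
    calc ∫⁻ ω, ENNReal.ofReal (osc (fun t => B t ω) δ ^ 4) ∂P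
        ≤ ∫⁻ ω, ENNReal.ofReal (10 ^ 4) * zet B δ 4 ω ∂P :=
          lintegral_mono fun ω => osc_four δ ω (hB.cont ω) (hB.zero ω)
      _ = ENNReal.ofReal (10 ^ 4) * ∫⁻ ω, zet B δ 4 ω ∂P :=
          lintegral_const_mul' _ _ ENNReal.ofReal_ne_top
      _ ≤ ENNReal.ofReal (10 ^ 4) * (ENNReal.ofReal ((δ : ℝ) ^ 2) * c0) := by
          gcongr; exact lint_zet4 hB.pre δ
      _ = ENNReal.ofReal (K0 * (δ : ℝ) ^ 2) := by
          rw [hK0, mul_right_comm, ENNReal.ofReal_mul (by positivity),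
            ENNReal.ofReal_mul (by positivity), ENNReal.ofReal_toReal c0_lt.ne, mul_assoc]
  constructor
  · rcases eq_or_ne δ 0 with rfl | hδ
    · have : ∀ ω, ENNReal.ofReal (osc (fun t => B t ω) 0 ^ 2) = 0 := by
        intro ω
        have h : osc (fun t => B t ω) 0 = 0 := by
          unfold osc
          have : ∀ n : ℕ, |B (min (dq n) 0) ω| = 0 := by
            intro n
            rw [min_eq_right zero_le, hB.zero, abs_zero]
          simp only [this]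
          exact ciSup_const
        rw [h]; simp
      simp [this]
    · have hδp : (0 : ℝ) < δ := by positivity
      have hpt : ∀ ω, ENNReal.ofReal (osc (fun t => B t ω) δ ^ 2) ≤
          ENNReal.ofReal (δ / 2) +
            ENNReal.ofReal (1 / (2 * δ)) * ENNReal.ofReal (osc (fun t => B t ω) δ ^ 4) := by
        intro ω
        rw [← ENNReal.ofReal_mul (by positivity), ← ENNReal.ofReal_add (by positivity)
          (by positivity)]
        apply ENNReal.ofReal_le_ofReal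
        set x := osc (fun t => B t ω) δ
        have h5 : 0 ≤ (x ^ 2 - δ) ^ 2 := sq_nonneg _
        have h6 : x ^ 2 * (2 * δ) ≤ δ ^ 2 + x ^ 4 := by nlinarith
        calc x ^ 2 = x ^ 2 * (2 * δ) / (2 * δ) := by field_simp
          _ ≤ (δ ^ 2 + x ^ 4) / (2 * δ) := by gcongr
          _ = _ := by field_simp
      calc ∫⁻ ω, ENNReal.ofReal (osc (fun t => B t ω) δ ^ 2) ∂P
          ≤ ∫⁻ ω, (ENNReal.ofReal (δ / 2) + ENNReal.ofReal (1 / (2 * δ)) *
              ENNReal.ofReal (osc (fun t => B t ω) δ ^ 4)) ∂P := lintegral_mono hpt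
        _ = ENNReal.ofReal (δ / 2) + ENNReal.ofReal (1 / (2 * δ)) *
              ∫⁻ ω, ENNReal.ofReal (osc (fun t => B t ω) δ ^ 4) ∂P := by
            rw [lintegral_add_left measurable_const, lintegral_const, measure_univ, mul_one,
              lintegral_const_mul' _ _ ENNReal.ofReal_ne_top]
        _ ≤ ENNReal.ofReal (δ / 2) + ENNReal.ofReal (1 / (2 * δ)) *
              ENNReal.ofReal (K0 * (δ : ℝ) ^ 2) := by gcongr
        _ = ENNReal.ofReal (δ / 2 + 1 / (2 * δ) * (K0 * (δ : ℝ) ^ 2)) := by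
            rw [← ENNReal.ofReal_mul (by positivity), ← ENNReal.ofReal_add (by positivity)
              (by positivity)]
        _ ≤ ENNReal.ofReal ((K0 + 1) * δ) := by
            apply ENNReal.ofReal_le_ofReal
            have e : 1 / (2 * (δ : ℝ)) * (K0 * (δ : ℝ) ^ 2) = K0 * δ / 2 := by field_simp
            rw [e]
            nlinarith
  · refine h4.trans (ENNReal.ofReal_le_ofReal ?_)
    nlinarith [sq_nonneg (δ : ℝ)]

end R771.AT
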