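import Mathlib

/-!
# The stable isometry `L ⊕ H₂ ≅ I₄ ⊕ H₂`

Explicit matrices, over any commutative ring with elements `t`, `s` such that `t * s = 1`.
-/

set_option autoImplicit false
set_option linter.all false

namespace Pool.Agent.R771.HT

variable {R : Type*} [CommRing R]

/-- the columns are the images of the standard basis of `I₄ ⊕ H₂` in `L ⊕ H₂` -/
def PM (t s : R) : Matrix (Fin 6) (Fin 6) R :=
  !![s - 1 + t, s - 1 + t, s - 2 + t, s - 2 + t, -2 * s ^ 2 + 2 * s - 4 + 4 * t, -2 + 2 * t;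
    s - 2 + t, s - 2 + t, s - 1 + t, s - 1 + t, -2 * s ^ 2 + 2 * s - 4 + 4 * t, -2 + 2 * t;
    -s ^ 2 + s - 1 + t - t ^ 2, -s ^ 2 + s - 2 + t - t ^ 2, -s ^ 2 + s - 1 + t - t ^ 2, -s ^ 2 + s - 1 + t - t ^ 2, 2 * s ^ 3 - s ^ 2 + 5 * s - 4 + 2 * t - 4 * t ^ 2, 2 * s - 1 + t - 2 * t ^ 2;
    -s ^ 2 + s - 1 + t - t ^ 2, -s ^ 2 + s - 1 + t - t ^ 2, -s ^ 2 + s - 1 + t - t ^ 2, -s ^ 2 + s - 2 + t - t ^ 2, 2 * s ^ 3 - s ^ 2 + 5 * s - 4 + 2 * t - 4 * t ^ 2, 2 * s - 1 + t - 2 * t ^ 2;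
    -s ^ 3 + s ^ 2 - t, -s ^ 3 + s ^ 2 - t, -s ^ 3 + s ^ 2 - t, -s ^ 3 + s ^ 2 - t, 2 * s ^ 4 - s ^ 3 + 3 * s ^ 2 - 2 * s - 1 - 2 * t + t ^ 2 + t ^ 3, 2 * s ^ 2 - s - 1 - t + t ^ 2;
    -s ^ 3 + s ^ 2 - 1, -s ^ 3 + s ^ 2 - 1, -s ^ 3 + s ^ 2 - 1, -s ^ 3 + s ^ 2 - 1, 2 * s ^ 4 - s ^ 3 + 3 * s ^ 2 - 2 + t + t ^ 2, 2 * s ^ 2 - s - 1 + t]

/-- the inverse matrix -/
def QM (t s : R) : Matrix (Fin 6) (Fin 6) R :=
  !![s + t, s - 1 + t, 1, 0, -s + 1 + t - 2 * t ^ 2 + t ^ 3, s - 1 - t ^ 2 + 2 * t ^ 3 - t ^ 4;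
    -1, -1, -1, 0, -s + 1 + t - 2 * t ^ 2 + t ^ 3, s - 1 - t ^ 2 + 2 * t ^ 3 - t ^ 4;
    s - 1 + t, s + t, 0, 1, -s + 1 + t - 2 * t ^ 2 + t ^ 3, s - 1 - t ^ 2 + 2 * t ^ 3 - t ^ 4;
    -1, -1, 0, -1, -s + 1 + t - 2 * t ^ 2 + t ^ 3, s - 1 - t ^ 2 + 2 * t ^ 3 - t ^ 4;
    1, 1, 0, 0, s - 1 - t + 2 * t ^ 2, -s + 1 + t + t ^ 2 - 2 * t ^ 3;
    -2 * s - t, -2 * s - t, 0, 0, -s ^ 3 - s ^ 2 + 2 * s - 3 * t + t ^ 2 - 2 * t ^ 3, s ^ 3 + s ^ 2 - 2 * s - 1 - 2 * t + 3 * t ^ 2 - t ^ 3 + 2 * t ^ 4]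

/-- the form `L ⊕ H₂` -/
def FL (t s : R) : Matrix (Fin 6) (Fin 6) R :=
  !![s ^ 2 + s + 3 + t + t ^ 2, s ^ 2 + s + 2 + t + t ^ 2, s + 1 + t, s + t, 0, 0;
    s ^ 2 + s + 2 + t + t ^ 2, s ^ 2 + s + 3 + t + t ^ 2, s + t, s + 1 + t, 0, 0;
    s + 1 + t, s + t, 2, 0, 0, 0;
    s + t, s + 1 + t, 0, 2, 0, 0;
    0, 0, 0, 0, 0, -1 + t;
    0, 0, 0, 0, s - 1, 0]

/-- the form `I₄ ⊕ H₂` -/
def FQ (t s : R) : Matrix (Fin 6) (Fin 6) R :=
  !![1, 0, 0, 0, 0, 0;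
    0, 1, 0, 0, 0, 0;
    0, 0, 1, 0, 0, 0;
    0, 0, 0, 1, 0, 0;
    0, 0, 0, 0, 0, -1 + t;
    0, 0, 0, 0, s - 1, 0]

theorem PM_mul_QM (t s : R) (h : t * s = 1) : PM t s * QM t s = 1 := by
  ext i j
  fin_cases i <;> fin_cases j <;>
    simp only [PM, QM, Matrix.mul_apply, Fin.sum_univ_six, Matrix.of_apply, Matrix.cons_val, Matrix.cons_val_zero, Matrix.cons_val_one, Fin.isValue, Fin.zero_eta, Fin.mk_one, Fin.reduceFinMk, Matrix.one_apply, Fin.reduceEq, if_true, if_false, reduceIte]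
  · linear_combination (0) * h
  · linear_combination (0) * h
  · linear_combination (0) * h
  · linear_combination (0) * h
  · linear_combination (-2 * s ^ 2 + 2 - 4 * t * s - 4 * t + 4 * t ^ 2) * h
  · linear_combination (2 * s ^ 2 - 4 - 2 * t * s + 2 * t + 4 * t ^ 2 * s + 4 * t ^ 2 - 4 * t ^ 3) * h
  · linear_combination (0) * h
  · linear_combination (0) * h
  · linear_combination (0) * h
  · linear_combination (0) * h
  · linear_combination (-2 * s ^ 2 + 2 - 4 * t * s - 4 * t + 4 * t ^ 2) * h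
  · linear_combination (2 * s ^ 2 - 4 - 2 * t * s + 2 * t + 4 * t ^ 2 * s + 4 * t ^ 2 - 4 * t ^ 3) * h
  · linear_combination (-2 * s + 2 * t) * h
  · linear_combination (-2 * s + 2 * t) * h
  · linear_combination (0) * h
  · linear_combination (0) * h
  · linear_combination (-3 * s ^ 2 + 2 * s + 6 * t * s ^ 2 + 8 * t * s + 1 - 4 * t ^ 2 * s - 4 * t) * h
  · linear_combination (3 * s ^ 2 - 3 * t * s - 2 - 4 * t ^ 2 * s ^ 2 + 5 * t - 6 * t ^ 2 * s + 4 * t ^ 3 * s) * h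
  · linear_combination (-2 * s + 2 * t) * h
  · linear_combination (-2 * s + 2 * t) * h
  · linear_combination (0) * h
  · linear_combination (0) * h
  · linear_combination (-3 * s ^ 2 + 2 * s + 6 * t * s ^ 2 + 8 * t * s + 1 - 4 * t ^ 2 * s - 4 * t) * h
  · linear_combination (3 * s ^ 2 - 3 * t * s - 2 - 4 * t ^ 2 * s ^ 2 + 5 * t - 6 * t ^ 2 * s + 4 * t ^ 3 * s) * h
  · linear_combination (-2 * s ^ 2 + 1 - 2 * t) * h
  · linear_combination (-2 * s ^ 2 + 1 - 2 * t) * h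
  · linear_combination (0) * h
  · linear_combination (0) * h
  · linear_combination (-2 * s ^ 3 + 2 * s ^ 2 + 4 * t * s ^ 3 + s + 5 * t * s ^ 2 - 5 * t * s - 4 * t ^ 2 * s ^ 2 - 2 * t + 3 * t ^ 2) * h
  · linear_combination (2 * s ^ 3 + 2 * t * s ^ 3 - 2 * s - 4 * t ^ 2 * s ^ 3 - 6 * t ^ 2 * s ^ 2 + 4 * t ^ 3 * s ^ 2 + 4 * t ^ 2 * s - 4 * t + 4 * t ^ 2 - 2 * t ^ 3) * h
  · linear_combination (-2 * s ^ 2 - 1) * h
  · linear_combination (-2 * s ^ 2 - 1) * h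
  · linear_combination (0) * h
  · linear_combination (0) * h
  · linear_combination (-2 * s ^ 3 + 4 * t * s ^ 3 + 6 * t * s ^ 2 - 4 * t ^ 2 * s ^ 2 - 4 * t * s + 2 + 2 * t ^ 2) * h
  · linear_combination (2 * s ^ 3 + 2 * t * s ^ 3 + 2 * s ^ 2 - t * s ^ 2 - s - 4 * t ^ 2 * s ^ 3 - t * s - 2 - 6 * t ^ 2 * s ^ 2 + 4 * t ^ 3 * s ^ 2 + 4 * t ^ 2 * s + t ^ 2 - 2 * t ^ 3) * h

theorem star_PM (t s : R) (h : t * s = 1) : (PM s t).transpose * FL t s = FQ t s * QM t s := by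
  ext i j
  fin_cases i <;> fin_cases j <;>
    simp only [PM, QM, FL, FQ, Matrix.mul_apply, Matrix.transpose_apply, Fin.sum_univ_six, Matrix.of_apply, Matrix.cons_val, Matrix.cons_val_zero, Matrix.cons_val_one, Fin.isValue, Fin.zero_eta, Fin.mk_one, Fin.reduceFinMk]
  · linear_combination (8) * h
  · linear_combination (8) * h
  · linear_combination (4) * h
  · linear_combination (4) * h
  · linear_combination (t - t ^ 2) * h
  · linear_combination (-1) * h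
  · linear_combination (8) * h
  · linear_combination (8) * h
  · linear_combination (4) * h
  · linear_combination (4) * h
  · linear_combination (t - t ^ 2) * h
  · linear_combination (-1) * h
  · linear_combination (8) * h
  · linear_combination (8) * h
  · linear_combination (4) * h
  · linear_combination (4) * h
  · linear_combination (t - t ^ 2) * h
  · linear_combination (-1) * h
  · linear_combination (8) * h
  · linear_combination (8) * h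
  · linear_combination (4) * h
  · linear_combination (4) * h
  · linear_combination (t - t ^ 2) * h
  · linear_combination (-1) * h
  · linear_combination (-4 * s + 24 - 4 * t * s + 2 * t + 4 * t ^ 2) * h
  · linear_combination (-4 * s + 24 - 4 * t * s + 2 * t + 4 * t ^ 2) * h
  · linear_combination (12 - 4 * t) * h
  · linear_combination (12 - 4 * t) * h
  · linear_combination (s ^ 2 + s - 2 + 3 * t - t ^ 2 + 2 * t ^ 3) * h
  · linear_combination (0) * h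
  · linear_combination (-4 * s + 10 + 4 * t) * h
  · linear_combination (-4 * s + 10 + 4 * t) * h
  · linear_combination (4) * h
  · linear_combination (4) * h
  · linear_combination (0) * h
  · linear_combination (s - 2 - t + 2 * t ^ 2) * h

theorem isometry (t s : R) (h : t * s = 1) : (PM s t).transpose * FL t s * PM t s = FQ t s := by
  have h1 : QM t s * PM t s = 1 := mul_eq_one_comm.mp (PM_mul_QM t s h)
  rw [star_PM t s h, Matrix.mul_assoc, h1, Matrix.mul_one]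

end Pool.Agent.R771.HT
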