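import Pool.Agent.R771.HTNorm
import Pool.Agent.R771.HTMat

/-!
# The Hambleton-Teichner form and the conditions of the problem
-/

set_option autoImplicit false
set_option linter.all false

open LaurentPolynomial
open scoped Matrix

namespace Pool.Agent.R771.HT

section generic

variable {R : Type*} [CommRing R]

/-- the Hambleton-Teichner form, with `x = t + s` -/
def Lf (t s : R) : Matrix (Fin 4) (Fin 4) R :=
  !![1 + (t + s) + (t + s) ^ 2, (t + s) + (t + s) ^ 2, 1 + (t + s), t + s;
     (t + s) + (t + s) ^ 2, 1 + (t + s) + (t + s) ^ 2, t + s, 1 + (t + s);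
     1 + (t + s), t + s, 2, 0;
     t + s, 1 + (t + s), 0, 2]

/-- its inverse -/
def Li (t s : R) : Matrix (Fin 4) (Fin 4) R :=
  !![2, 0, -(1 + (t + s)), -(t + s);
     0, 2, -(t + s), -(1 + (t + s));
     -(1 + (t + s)), -(t + s), 1 + (t + s) + (t + s) ^ 2, (t + s) + (t + s) ^ 2;
     -(t + s), -(1 + (t + s)), (t + s) + (t + s) ^ 2, 1 + (t + s) + (t + s) ^ 2]

theorem Lf_mul_Li (t s : R) : Lf t s * Li t s = 1 := by
  ext i j
  fin_cases i <;> fin_cases j <;>
    simp only [Lf, Li, Matrix.mul_apply, Fin.sum_univ_four, Matrix.of_apply, Matrix.cons_val,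
      Matrix.cons_val_zero, Matrix.cons_val_one, Fin.isValue, Fin.zero_eta, Fin.mk_one,
      Fin.reduceFinMk, Matrix.one_apply, Fin.reduceEq, if_true, if_false, reduceIte] <;> ring

theorem map_Lf {S : Type*} [CommRing S] (φ : R →+* S) (t s : R) :
    (Lf t s).map φ = Lf (φ t) (φ s) := by
  ext i j
  fin_cases i <;> fin_cases j <;> simp [Lf, map_ofNat]

theorem map_PM {S : Type*} [CommRing S] (φ : R →+* S) (t s : R) :
    (PM t s).map φ = PM (φ t) (φ s) := by
  ext i j
  fin_cases i <;> fin_cases j <;> simp [PM, map_ofNat]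

theorem transpose_Lf (t s : R) : (Lf t s)ᵀ = Lf t s := by
  ext i j
  fin_cases i <;> fin_cases j <;> rfl

theorem Lf_swap (t s : R) : Lf t s = Lf s t := by
  unfold Lf
  rw [add_comm t s]

/-- the value of the form, written out -/
theorem form_apply (t s : R) (a b : Fin 4 → R) :
    ∑ j, (∑ i, b i * Lf t s i j) * a j =
      b 0 * ((1 + (t + s) + (t + s) ^ 2) * a 0 + ((t + s) + (t + s) ^ 2) * a 1 +
        (1 + (t + s)) * a 2 + (t + s) * a 3) +
      b 1 * (((t + s) + (t + s) ^ 2) * a 0 + (1 + (t + s) + (t + s) ^ 2) * a 1 + (t + s) * a 2 +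
        (1 + (t + s)) * a 3) +
      b 2 * ((1 + (t + s)) * a 0 + (t + s) * a 1 + 2 * a 2) +
      b 3 * ((t + s) * a 0 + (1 + (t + s)) * a 1 + 2 * a 3) := by
  simp only [Fin.sum_univ_four, Lf, Matrix.of_apply, Matrix.cons_val, Matrix.cons_val_zero,
    Matrix.cons_val_one, Fin.isValue]
  ring

end generic

/-- the index map -/
def ix : Fin 4 ⊕ Fin 2 × Fin 1 ≃ Fin 6 :=
  (Equiv.sumCongr (Equiv.refl _) (Equiv.prodUnique _ _)).trans finSumFinEquiv

theorem fromBlocks_Lf {R : Type*} [CommRing R] (t s : R) (h : t * s = 1) :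
    Matrix.fromBlocks (Lf t s) 0 0 (Matrix.blockDiagonal (fun _ : Fin 1 => !![0, t - 1; s - 1, 0]))
      = (FL t s).submatrix ix ix := by
  ext i j
  rcases i with i | ⟨i, u⟩ <;> rcases j with j | ⟨j, v⟩
  · fin_cases i <;> fin_cases j <;>
      simp [FL, Lf, ix, finSumFinEquiv] <;> first | (linear_combination 2 * h) | ring
  · fin_cases i <;> fin_cases j <;> simp [FL, ix, finSumFinEquiv] <;> rfl
  · fin_cases i <;> fin_cases j <;> simp [FL, ix, finSumFinEquiv] <;> rfl
  · obtain rfl : u = 0 := Subsingleton.elim _ _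
    obtain rfl : v = 0 := Subsingleton.elim _ _
    fin_cases i <;> fin_cases j <;>
      simp [FL, ix, finSumFinEquiv, Matrix.blockDiagonal_apply] <;> first | rfl | ring

theorem fromBlocks_one {R : Type*} [CommRing R] (t s : R) :
    Matrix.fromBlocks (1 : Matrix (Fin 4) (Fin 4) R) 0 0
      (Matrix.blockDiagonal (fun _ : Fin 1 => !![0, t - 1; s - 1, 0]))
      = (FQ t s).submatrix ix ix := by
  ext i j
  rcases i with i | ⟨i, u⟩ <;> rcases j with j | ⟨j, v⟩
  · fin_cases i <;> fin_cases j <;>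
      simp [FQ, ix, finSumFinEquiv]
  · fin_cases i <;> fin_cases j <;> simp [FQ, ix, finSumFinEquiv] <;> rfl
  · fin_cases i <;> fin_cases j <;> simp [FQ, ix, finSumFinEquiv] <;> rfl
  · obtain rfl : u = 0 := Subsingleton.elim _ _
    obtain rfl : v = 0 := Subsingleton.elim _ _
    fin_cases i <;> fin_cases j <;>
      simp [FQ, ix, finSumFinEquiv, Matrix.blockDiagonal_apply] <;> first | rfl | ring

end Pool.Agent.R771.HT
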