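import Mathlib

/-!
# The Hambleton-Teichner form has no vector of norm one

`L` is the hermitian form of rank four over `ℤ[t, t⁻¹]` of Hambleton and Teichner
(A non-extended hermitian form over `ℤ[ℤ]`). We show that it represents no vector of norm one. The
proof: `2 * L(v, v)` is a sum of four norms of Laurent polynomials; the constant coefficient of a norm
is the sum of the squares of the coefficients.
-/

set_option autoImplicit false

open LaurentPolynomial

namespace Pool.Agent.R771.HT

/-- sum of the squares of the coefficients -/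
noncomputable def N (f : LaurentPolynomial ℤ) : ℤ := ∑ n ∈ f.coeff.support, f.coeff n ^ 2

theorem coeff_norm (f : LaurentPolynomial ℤ) : (invert f * f).coeff 0 = N f := by
  classical
  rw [mul_comm, AddMonoidAlgebra.coeff_mul, N, Finsupp.sum]
  refine Finset.sum_congr rfl fun a _ => ?_
  rw [Finsupp.sum]
  by_cases h : -a ∈ (invert f).coeff.support
  · rw [Finset.sum_eq_single (-a)]
    · rw [invert_apply]; simp [pow_two]
    · intro b _ hb
      rw [if_neg]
      intro h2
      exact hb (by omega)
    · intro h2; exact absurd h h2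
  · have h0 : f.coeff a = 0 := by
      have := Finsupp.notMem_support_iff.mp h
      rwa [invert_apply, neg_neg] at this
    rw [h0]
    simp

theorem N_nonneg (f : LaurentPolynomial ℤ) : 0 ≤ N f :=
  Finset.sum_nonneg fun _ _ => sq_nonneg _

theorem N_eq_zero {f : LaurentPolynomial ℤ} (h : N f = 0) : f = 0 := by
  rw [N, Finset.sum_eq_zero_iff_of_nonneg fun _ _ => sq_nonneg _] at h
  ext n
  by_cases hn : n ∈ f.coeff.support
  · have := h n hn
    simpa using this
  · simpa using hn

theorem N_pos {f : LaurentPolynomial ℤ} (h : f ≠ 0) : 1 ≤ N f := by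
  have := N_nonneg f
  rcases lt_or_eq_of_le this with h1 | h1
  · omega
  · exact absurd (N_eq_zero h1.symm) h

theorem N_zero : N 0 = 0 := by simp [N]

theorem N_two_mul (f : LaurentPolynomial ℤ) : N (2 * f) = 4 * N f := by
  rw [← coeff_norm, ← coeff_norm, map_mul]
  have : invert (2 : LaurentPolynomial ℤ) = 2 := by
    rw [show (2 : LaurentPolynomial ℤ) = C 2 by simp, invert_C]
  rw [this, show (2 : LaurentPolynomial ℤ) * invert f * (2 * f) = (invert f * f) + (invert f * f)
    + (invert f * f) + (invert f * f) by ring]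
  simp only [AddMonoidAlgebra.coeff_add, Finsupp.add_apply]
  ring

theorem of_N_eq_one {f : LaurentPolynomial ℤ} (h : N f = 1) :
    ∃ a : ℤ, (f.coeff a = 1 ∨ f.coeff a = -1) ∧ ∀ n, n ≠ a → f.coeff n = 0 := by
  classical
  have hf : f ≠ 0 := by rintro rfl; rw [N_zero] at h; omega
  have hs : f.coeff.support.Nonempty := by
    rw [Finset.nonempty_iff_ne_empty]
    intro h0
    apply hf
    ext n
    have : n ∉ f.coeff.support := by rw [h0]; simp
    simpa using this
  obtain ⟨a, ha⟩ := hs
  rw [N, ← Finset.add_sum_erase _ _ ha] at h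
  have h1 : 1 ≤ f.coeff a ^ 2 := by
    have : f.coeff a ≠ 0 := Finsupp.mem_support_iff.mp ha
    have := sq_pos_of_ne_zero this
    omega
  have h2 : 0 ≤ ∑ n ∈ f.coeff.support.erase a, f.coeff n ^ 2 :=
    Finset.sum_nonneg fun _ _ => sq_nonneg _
  have h3 : f.coeff a ^ 2 = 1 := by omega
  have h4 : ∑ n ∈ f.coeff.support.erase a, f.coeff n ^ 2 = 0 := by omega
  have h5 : (f.coeff a - 1) * (f.coeff a + 1) = 0 := by
    have : (f.coeff a - 1) * (f.coeff a + 1) = f.coeff a ^ 2 - 1 := by ring
    rw [this, h3]; ring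
  refine ⟨a, ?_, ?_⟩
  · rcases mul_eq_zero.mp h5 with h6 | h6
    · left; omega
    · right; omega
  intro n hn
  rw [Finset.sum_eq_zero_iff_of_nonneg fun _ _ => sq_nonneg _] at h4
  by_cases hm : n ∈ f.coeff.support
  · have := h4 n (Finset.mem_erase.mpr ⟨hn, hm⟩)
    simpa using this
  · simpa using hm

/-- the element `t + t⁻¹` -/
noncomputable def x : LaurentPolynomial ℤ := T 1 + T (-1)

theorem invert_x : invert x = x := by
  simp only [x, map_add, invert_T, neg_neg]
  ring

theorem invert_two : invert (2 : LaurentPolynomial ℤ) = 2 := by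
  rw [show (2 : LaurentPolynomial ℤ) = C 2 by simp, invert_C]

theorem coeff_x_mul (f : LaurentPolynomial ℤ) (n : ℤ) :
    (x * f).coeff n = f.coeff (n - 1) + f.coeff (n + 1) := by
  have h1 : ∀ m k : ℤ, (T m * f).coeff k = f.coeff (k - m) := by
    intro m k
    rw [T, AddMonoidAlgebra.coeff_single_mul_apply]
    rw [one_mul]; congr 1; omega
  rw [x, add_mul, AddMonoidAlgebra.coeff_add, Finsupp.add_apply, h1, h1, sub_neg_eq_add]

theorem coeff_two_mul (f : LaurentPolynomial ℤ) (n : ℤ) :
    (2 * f).coeff n = 2 * f.coeff n := by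
  rw [two_mul, AddMonoidAlgebra.coeff_add, Finsupp.add_apply]; ring

/-- the four norms -/
theorem key {v1 v2 v3 v4 : LaurentPolynomial ℤ}
    (h : N v1 + N v2 + N ((1 + x) * v1 + x * v2 + 2 * v3) + N (x * v1 + (1 + x) * v2 + 2 * v4) = 2) :
    False := by
  have n1 := N_nonneg v1
  have n2 := N_nonneg v2
  have n3 := N_nonneg ((1 + x) * v1 + x * v2 + 2 * v3)
  have n4 := N_nonneg (x * v1 + (1 + x) * v2 + 2 * v4)
  -- an odd coefficient
  have odd : ∀ {v w : LaurentPolynomial ℤ}, N v = 1 → (1 + x) * v + 2 * w ≠ 0 := by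
    intro v w hv h0
    obtain ⟨a, ha, hz⟩ := of_N_eq_one hv
    have := congrArg (fun f : LaurentPolynomial ℤ => f.coeff a) h0
    simp only [add_mul, one_mul, AddMonoidAlgebra.coeff_add, Finsupp.add_apply, coeff_x_mul,
      coeff_two_mul, AddMonoidAlgebra.coeff_zero, Finsupp.coe_zero, Pi.zero_apply] at this
    rw [hz (a - 1) (by omega), hz (a + 1) (by omega)] at this
    omega
  have odd' : ∀ {v w : LaurentPolynomial ℤ}, N v = 1 → x * v + 2 * w ≠ 0 := by
    intro v w hv h0
    obtain ⟨a, ha, hz⟩ := of_N_eq_one hv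
    have := congrArg (fun f : LaurentPolynomial ℤ => f.coeff (a + 1)) h0
    simp only [AddMonoidAlgebra.coeff_add, Finsupp.add_apply, coeff_x_mul,
      coeff_two_mul, AddMonoidAlgebra.coeff_zero, Finsupp.coe_zero, Pi.zero_apply] at this
    rw [hz (a + 1 + 1) (by omega), add_sub_cancel_right] at this
    omega
  by_cases h12 : N v1 + N v2 = 0
  · have e1 : v1 = 0 := N_eq_zero (by omega)
    have e2 : v2 = 0 := N_eq_zero (by omega)
    subst e1 e2
    simp only [mul_zero, zero_add, N_zero, N_two_mul] at h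
    omega
  by_cases h34 : N ((1 + x) * v1 + x * v2 + 2 * v3) + N (x * v1 + (1 + x) * v2 + 2 * v4) = 0
  · have e3 : (1 + x) * v1 + x * v2 + 2 * v3 = 0 := N_eq_zero (by omega)
    have e4 : x * v1 + (1 + x) * v2 + 2 * v4 = 0 := N_eq_zero (by omega)
    have f1 : v1 = 2 * (-x * v1 - (1 + x) * v3 + x * v4) := by
      linear_combination (1 + x) * e3 - x * e4
    have f2 : v2 = 2 * (-x * v2 - (1 + x) * v4 + x * v3) := by
      linear_combination (1 + x) * e4 - x * e3
    have g1 : N v1 = 4 * N (-x * v1 - (1 + x) * v3 + x * v4) := by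
      rw [← N_two_mul, ← f1]
    have g2 : N v2 = 4 * N (-x * v2 - (1 + x) * v4 + x * v3) := by
      rw [← N_two_mul, ← f2]
    omega
  have k12 : N v1 + N v2 = 1 := by omega
  rcases lt_or_eq_of_le n1 with c1 | c1
  · have c : N v1 = 1 := by omega
    have e2 : v2 = 0 := N_eq_zero (by omega)
    subst e2
    simp only [mul_zero, add_zero] at h
    have m3 := N_pos (odd (w := v3) c)
    have m4 := N_pos (odd' (w := v4) c)
    omega
  · have c : N v2 = 1 := by omega
    have e1 : v1 = 0 := N_eq_zero c1.symm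
    subst e1
    simp only [mul_zero, zero_add] at h
    have m3 := N_pos (odd' (w := v3) c)
    have m4 := N_pos (odd (w := v4) c)
    omega

/-- **No vector of norm one.** -/
theorem no_norm_one (v1 v2 v3 v4 : LaurentPolynomial ℤ)
    (h : invert v1 * ((1 + x + x ^ 2) * v1 + (x + x ^ 2) * v2 + (1 + x) * v3 + x * v4) +
      invert v2 * ((x + x ^ 2) * v1 + (1 + x + x ^ 2) * v2 + x * v3 + (1 + x) * v4) +
      invert v3 * ((1 + x) * v1 + x * v2 + 2 * v3) +
      invert v4 * (x * v1 + (1 + x) * v2 + 2 * v4) = 1) : False := by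
  refine key (v1 := v1) (v2 := v2) (v3 := v3) (v4 := v4) ?_
  rw [← coeff_norm, ← coeff_norm, ← coeff_norm, ← coeff_norm]
  have h2 : invert v1 * v1 + invert v2 * v2 +
      invert ((1 + x) * v1 + x * v2 + 2 * v3) * ((1 + x) * v1 + x * v2 + 2 * v3) +
      invert (x * v1 + (1 + x) * v2 + 2 * v4) * (x * v1 + (1 + x) * v2 + 2 * v4) = 1 + 1 := by
    simp only [map_add, map_mul, map_one, invert_x, invert_two]
    linear_combination 2 * h
  have h3 := congrArg (fun f : LaurentPolynomial ℤ => f.coeff 0) h2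
  simp only [AddMonoidAlgebra.coeff_add, Finsupp.add_apply] at h3
  rw [h3]
  have : (1 : LaurentPolynomial ℤ).coeff 0 = 1 := by
    rw [← T_zero, T_apply, if_pos rfl]
  rw [this]
  norm_num

end Pool.Agent.R771.HT
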