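import Mathlib
import Pool.Agent.Helper82.BorsukUlam

/-!
Primitive inner illuminating sets of convex bodies in three-space are bounded.

Let `a i`, `x i` be points of a convex body such that `x i` and `a j` lie in a common supporting
plane if `i ≠ j`, but not if `i = j`.  The theorem of Borsuk and Ulam shows that of three `a`s and
three `x`s (with six different indices) one `a` and two `x`s lie in a common supporting plane.
Counting then bounds the number of indices.
-/

set_option autoImplicit false

namespace Pool.Agent.R771.Illum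

open Finset

abbrev E3 := EuclideanSpace ℝ (Fin 3)

theorem exists_rel (v : Fin 4 → E3) : ∃ s : Fin 4 → ℝ, s ≠ 0 ∧
    s 0 • v 0 + s 1 • v 1 + s 2 • v 2 + s 3 • v 3 = 0 := by
  have h : ¬ LinearIndependent ℝ v := by
    intro h
    have := h.fintype_card_le_finrank
    simp at this
  rw [Fintype.not_linearIndependent_iff] at h
  obtain ⟨g, hg, i, hi⟩ := h
  refine ⟨g, fun h => hi (by rw [h]; rfl), ?_⟩
  rw [← hg, Fin.sum_univ_four]

/-- The median of three numbers. -/
noncomputable def med (v : Fin 3 → ℝ) : ℝ :=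
  v 0 + v 1 + v 2 - max (v 0) (max (v 1) (v 2)) - min (v 0) (min (v 1) (v 2))

theorem med_neg (v : Fin 3 → ℝ) : med (-v) = - med v := by
  simp only [med, Pi.neg_apply]
  rw [max_neg_neg, max_neg_neg, min_neg_neg, min_neg_neg]
  ring

theorem continuous_med : Continuous med := by
  unfold med
  fun_prop

theorem med_zero {v : Fin 3 → ℝ} (h : med v = 0) :
    ∃ i k : Fin 3, i ≠ k ∧ 0 ≤ v i ∧ v k ≤ 0 ∧ ∀ m, m ≠ i → m ≠ k → v m = 0 := by
  have key : ∀ i j k : Fin 3, i ≠ j → j ≠ k → i ≠ k → v i ≤ v j → v j ≤ v k → v j = 0 →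
      ∃ i k : Fin 3, i ≠ k ∧ 0 ≤ v i ∧ v k ≤ 0 ∧ ∀ m, m ≠ i → m ≠ k → v m = 0 := by
    intro i j k hij hjk hik h1 h2 h3
    refine ⟨k, i, hik.symm, by linarith, by linarith, fun m hm1 hm2 => ?_⟩
    have : m = j := by omega
    rw [this, h3]
  unfold med at h
  rcases le_total (v 0) (v 1) with h01 | h01 <;> rcases le_total (v 1) (v 2) with h12 | h12 <;>
    rcases le_total (v 0) (v 2) with h02 | h02
  · refine key 0 1 2 (by decide) (by decide) (by decide) h01 h12 ?_
    rw [max_eq_right h12, max_eq_right h02, min_eq_left h12, min_eq_left h01] at h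
    linarith
  · refine key 0 1 2 (by decide) (by decide) (by decide) h01 h12 ?_
    have e1 : v 0 = v 1 := by linarith
    have e2 : v 1 = v 2 := by linarith
    rw [max_eq_right h12, max_eq_left h02, min_eq_left h12, min_eq_left h01] at h
    linarith
  · refine key 0 2 1 (by decide) (by decide) (by decide) h02 h12 ?_
    rw [max_eq_left h12, max_eq_right h01, min_eq_right h12, min_eq_left h02] at h
    linarith
  · refine key 2 0 1 (by decide) (by decide) (by decide) h02 h01 ?_
    rw [max_eq_left h12, max_eq_right h01, min_eq_right h12, min_eq_right h02] at h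
    linarith
  · refine key 1 0 2 (by decide) (by decide) (by decide) h01 h02 ?_
    rw [max_eq_right h12, max_eq_right h02, min_eq_left h12, min_eq_right h01] at h
    linarith
  · refine key 1 2 0 (by decide) (by decide) (by decide) h12 h02 ?_
    rw [max_eq_right h12, max_eq_left h02, min_eq_left h12, min_eq_right h01] at h
    linarith
  · refine key 2 1 0 (by decide) (by decide) (by decide) h12 h01 ?_
    have e1 : v 0 = v 1 := by linarith
    have e2 : v 1 = v 2 := by linarith
    rw [max_eq_left h12, max_eq_left h01, min_eq_right h12, min_eq_left h02] at h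
    linarith
  · refine key 2 1 0 (by decide) (by decide) (by decide) h12 h01 ?_
    rw [max_eq_left h12, max_eq_left h01, min_eq_right h12, min_eq_right h02] at h
    linarith

/-- The crossing lemma: of the nine edges between three vectors `p` and three vectors `q` of
three-space, two disjoint ones span cones which meet. -/
theorem crossing (p q : Fin 3 → E3) :
    ∃ i k j l : Fin 3, i ≠ k ∧ j ≠ l ∧ ∃ α β γ δ : ℝ, 0 ≤ α ∧ 0 ≤ β ∧ 0 ≤ γ ∧ 0 ≤ δ ∧
      0 < α + β + γ + δ ∧ α • p i + β • q j = γ • p k + δ • q l := by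
  classical
  let T : ((Fin 3 → ℝ) × (Fin 3 → ℝ)) →ₗ[ℝ] E3 :=
    (Fintype.linearCombination ℝ p).coprod (Fintype.linearCombination ℝ q)
  have hT : ∀ u : (Fin 3 → ℝ) × (Fin 3 → ℝ), T u = ∑ i, u.1 i • p i + ∑ j, u.2 j • q j := by
    intro u
    simp [T, Fintype.linearCombination_apply]
  have hdim : 3 ≤ Module.finrank ℝ (LinearMap.ker T) := by
    have h1 := LinearMap.finrank_range_add_finrank_ker T
    have h2 : Module.finrank ℝ (LinearMap.range T) ≤ 3 := by
      have := Submodule.finrank_le (LinearMap.range T)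
      simpa using this
    have h3 : Module.finrank ℝ ((Fin 3 → ℝ) × (Fin 3 → ℝ)) = 6 := by simp
    omega
  obtain ⟨w, hw⟩ : ∃ w : Fin 3 → LinearMap.ker T, LinearIndependent ℝ w :=
    exists_linearIndependent_of_le_finrank hdim
  let φ : (Fin 3 → ℝ) →ₗ[ℝ] ((Fin 3 → ℝ) × (Fin 3 → ℝ)) :=
    (LinearMap.ker T).subtype.comp (Fintype.linearCombination ℝ w)
  have hφT : ∀ y, T (φ y) = 0 := fun y => (Fintype.linearCombination ℝ w y).2
  have hφ0 : ∀ y, φ y = 0 → y = 0 := by
    intro y hy
    have h1 : Fintype.linearCombination ℝ w y = 0 := by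
      apply Subtype.ext
      simpa [φ] using hy
    rw [Fintype.linearCombination_apply] at h1
    rw [Fintype.linearIndependent_iff] at hw
    exact funext (hw y h1)
  have hφc : Continuous φ := φ.continuous_of_finiteDimensional
  let f : (Fin 3 → ℝ) → (Fin 2 → ℝ) := fun y => ![med (φ y).1, med (φ y).2]
  have hf : Continuous f := by
    refine continuous_pi fun i => ?_
    fin_cases i
    · exact continuous_med.comp (continuous_fst.comp hφc)
    · exact continuous_med.comp (continuous_snd.comp hφc)
  have hodd : ∀ y, f (-y) = - f y := by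
    intro y
    ext i
    fin_cases i
    · simp [f, med_neg]
    · simp [f, med_neg]
  obtain ⟨y, hyK, hy⟩ := Pool.Agent.Helper82.BorsukUlam.borsuk_ulam 2 f hf hodd
  have hy1 : med (φ y).1 = 0 := by simpa [f] using congrFun hy 0
  have hy2 : med (φ y).2 = 0 := by simpa [f] using congrFun hy 1
  have hyne : φ y ≠ 0 := by
    intro h
    have h0 := hφ0 y h
    rw [h0] at hyK
    simp [Pool.Agent.Helper82.BorsukUlam.K] at hyK
  obtain ⟨i, k, hik, hi, hk, hm⟩ := med_zero hy1
  obtain ⟨j, l, hjl, hj, hl, hm'⟩ := med_zero hy2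
  have sum3 : ∀ (r : Fin 3 → E3) (u : Fin 3 → ℝ) (i k : Fin 3), i ≠ k →
      (∀ m, m ≠ i → m ≠ k → u m = 0) → ∑ m, u m • r m = u i • r i + u k • r k := by
    intro r u i k hik hu
    have : ∑ m, u m • r m = ∑ m ∈ ({i, k} : Finset (Fin 3)), u m • r m := by
      symm
      apply Finset.sum_subset (Finset.subset_univ _)
      intro m _ hm
      simp only [Finset.mem_insert, Finset.mem_singleton, not_or] at hm
      rw [hu m hm.1 hm.2, zero_smul]
    rw [this, Finset.sum_pair hik]
  have h0 := hφT y
  rw [hT, sum3 p _ i k hik hm, sum3 q _ j l hjl hm'] at h0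
  refine ⟨i, k, j, l, hik, hjl, (φ y).1 i, (φ y).2 j, -(φ y).1 k, -(φ y).2 l, hi, hj,
    by linarith, by linarith, ?_, ?_⟩
  · by_contra hcon
    have e1 : (φ y).1 i = 0 := by linarith
    have e2 : (φ y).2 j = 0 := by linarith
    have e3 : (φ y).1 k = 0 := by linarith
    have e4 : (φ y).2 l = 0 := by linarith
    apply hyne
    apply Prod.ext
    · funext m
      by_cases h1 : m = i
      · rw [h1, e1]; rfl
      by_cases h2 : m = k
      · rw [h2, e3]; rfl
      exact hm m h1 h2
    · funext m
      by_cases h1 : m = j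
      · rw [h1, e2]; rfl
      by_cases h2 : m = l
      · rw [h2, e4]; rfl
      exact hm' m h1 h2
  · have h5 : (φ y).1 i • p i + (φ y).2 j • q j - (-(φ y).1 k • p k + -(φ y).2 l • q l) =
        (φ y).1 i • p i + (φ y).1 k • p k + ((φ y).2 j • q j + (φ y).2 l • q l) := by
      module
    rw [← sub_eq_zero, h5, h0]

end Pool.Agent.R771.Illum
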