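import Mathlib
import Pool.Agent.R771.Illum

/-!
Counting argument for primitive inner illuminating sets of convex bodies in three-space.
-/

set_option autoImplicit false

namespace Pool.Agent.R771.Illum

open Finset

/-- Two families of points: `x i` and `a j` lie in a common supporting plane exactly if `i ≠ j`.
`Sp f c` says that `f = c` is a supporting plane; `o` is an interior point. -/
structure Fam (ι : Type*) where
  a : ι → E3
  x : ι → E3
  o : E3
  Sp : (E3 →ₗ[ℝ] ℝ) → ℝ → Prop
  ha : ∀ f c, Sp f c → ∀ i, f (a i) ≤ c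
  hx : ∀ f c, Sp f c → ∀ i, f (x i) ≤ c
  ho : ∀ f c, Sp f c → f o < c
  adj : ∀ i j, i ≠ j → ∃ f c, Sp f c ∧ f (x i) = c ∧ f (a j) = c
  sep : ∀ i f c, Sp f c → f (x i) = c → f (a i) = c → False

theorem inj3 {ι : Type*} {a b c : ι} (h1 : a ≠ b) (h2 : a ≠ c) (h3 : b ≠ c) :
    Function.Injective (![a, b, c] : Fin 3 → ι) := by
  intro m m' h
  fin_cases m <;> fin_cases m'
  · rfl
  · exact absurd h h1
  · exact absurd h h2
  · exact absurd h.symm h1
  · rfl
  · exact absurd h h3
  · exact absurd h.symm h2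
  · exact absurd h.symm h3
  · rfl

theorem mem3 {ι : Type*} {a b c : ι} {S : Finset ι} (h1 : a ∈ S) (h2 : b ∈ S) (h3 : c ∈ S)
    (m : Fin 3) : (![a, b, c] : Fin 3 → ι) m ∈ S := by
  fin_cases m
  · exact h1
  · exact h2
  · exact h3

namespace Fam

variable {ι : Type*} (F : Fam ι)

/-- `a i` lies in a supporting plane through `x j` and `x l`. -/
def Bad (j l i : ι) : Prop := ∃ f c, F.Sp f c ∧ f (F.x j) = c ∧ f (F.x l) = c ∧ f (F.a i) = c

theorem a_ne {i k : ι} (h : i ≠ k) : F.a i ≠ F.a k := by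
  intro heq
  obtain ⟨f, c, hs, h1, h2⟩ := F.adj i k h
  exact F.sep i f c hs h1 (by rw [heq]; exact h2)

theorem x_ne {i k : ι} (h : i ≠ k) : F.x i ≠ F.x k := by
  intro heq
  obtain ⟨f, c, hs, h1, h2⟩ := F.adj i k h
  exact F.sep k f c hs (by rw [← heq]; exact h1) h2

/-- No `a` is in the convex hull of others (three points version). -/
theorem not_conv {i k l : ι} (hil : i ≠ l) {s t : ℝ} (hs : 0 < s) (ht : 0 ≤ t)
    (h : s • (F.a i - F.a l) + t • (F.a k - F.a l) = 0) : False := by
  obtain ⟨f, c, hS, h1, h2⟩ := F.adj i l hil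
  have h3 := congrArg f h
  simp only [map_add, map_smul, map_sub, smul_eq_mul, map_zero] at h3
  have h4 := F.ha f c hS i
  have h5 := F.ha f c hS k
  have h6 : t * (f (F.a k) - f (F.a l)) ≤ 0 :=
    mul_nonpos_of_nonneg_of_nonpos ht (by rw [h2]; linarith)
  have h7 : 0 ≤ s * (f (F.a i) - f (F.a l)) := by linarith
  have h8 : 0 ≤ f (F.a i) - f (F.a l) := by
    by_contra hcon
    push Not at hcon
    have := mul_neg_of_pos_of_neg hs hcon
    linarith
  exact F.sep i f c hS h1 (by rw [h2] at h8; linarith)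

theorem not_collinear {i k l : ι} (hik : i ≠ k) (hil : i ≠ l) (hkl : k ≠ l) {s t : ℝ}
    (hne : s ≠ 0 ∨ t ≠ 0) (h : s • (F.a i - F.a l) + t • (F.a k - F.a l) = 0) : False := by
  -- weights `s`, `t`, `-(s + t)`
  have main : ∀ (i k l : ι), i ≠ k → i ≠ l → k ≠ l → ∀ s t : ℝ, (s ≠ 0 ∨ t ≠ 0) →
      0 ≤ s → 0 ≤ t → s • (F.a i - F.a l) + t • (F.a k - F.a l) = 0 → False := by
    intro i k l hik hil hkl s t hne hs ht h
    rcases lt_or_eq_of_le hs with hs' | hs'
    · exact F.not_conv hil hs' ht h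
    · rcases lt_or_eq_of_le ht with ht' | ht'
      · exact F.not_conv hkl ht' hs (by rw [add_comm]; exact h)
      · rcases hne with h' | h'
        · exact h' hs'.symm
        · exact h' ht'.symm
  have main2 : ∀ (i k l : ι), i ≠ k → i ≠ l → k ≠ l → ∀ s t : ℝ, (s ≠ 0 ∨ t ≠ 0) →
      s ≤ 0 → 0 ≤ s + t → s • (F.a i - F.a l) + t • (F.a k - F.a l) = 0 → False := by
    intro i k l hik hil hkl s t hne hs hst h
    -- write with base `i`: weights `-(s+t)` at `l`... sign: s ≤ 0, t ≥ 0, and weight of `l` is ≤ 0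
    -- so `k` is positive, `i`, `l` are nonpositive; negate and use base `k`
    refine main i l k hil hik hkl.symm (-s) (s + t) ?_ (by linarith) hst ?_
    · by_contra hcon
      push Not at hcon
      rcases hne with h' | h'
      · exact h' (by linarith [hcon.1])
      · exact h' (by linarith [hcon.1, hcon.2])
    · have : -s • (F.a i - F.a k) + (s + t) • (F.a l - F.a k) =
          -(s • (F.a i - F.a l) + t • (F.a k - F.a l)) := by module
      rw [this, h, neg_zero]
  rcases le_total 0 s with hs | hs <;> rcases le_total 0 t with ht | ht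
  · exact main i k l hik hil hkl s t hne hs ht h
  · -- s ≥ 0, t ≤ 0
    rcases le_total 0 (s + t) with hst | hst
    · exact main2 k i l hik.symm hkl hil t s hne.symm ht (by linarith)
        (by rw [add_comm]; exact h)
    · refine main2 i k l hik hil hkl (-s) (-t) ?_ (by linarith) (by linarith) ?_
      · rcases hne with h' | h'
        · left; simpa using h'
        · right; simpa using h'
      · have : -s • (F.a i - F.a l) + -t • (F.a k - F.a l) =
          -(s • (F.a i - F.a l) + t • (F.a k - F.a l)) := by module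
        rw [this, h, neg_zero]
  · rcases le_total 0 (s + t) with hst | hst
    · exact main2 i k l hik hil hkl s t hne hs hst h
    · refine main2 k i l hik.symm hkl hil (-t) (-s) ?_ (by linarith) (by linarith) ?_
      · rcases hne with h' | h'
        · right; simpa using h'
        · left; simpa using h'
      · have : -t • (F.a k - F.a l) + -s • (F.a i - F.a l) =
          -(s • (F.a i - F.a l) + t • (F.a k - F.a l)) := by module
        rw [this, h, neg_zero]
  · refine main i k l hik hil hkl (-s) (-t) ?_ (by linarith) (by linarith) ?_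
    · rcases hne with h' | h'
      · left; simpa using h'
      · right; simpa using h'
    · have : -s • (F.a i - F.a l) + -t • (F.a k - F.a l) =
        -(s • (F.a i - F.a l) + t • (F.a k - F.a l)) := by module
      rw [this, h, neg_zero]

/-- Two different supporting planes share at most two `a`s. -/
theorem two_planes {f g : E3 →ₗ[ℝ] ℝ} {c c' : ℝ} (hg : F.Sp g c') {z : E3}
    (hz : g z = c') (hz' : f z ≠ c) {i k l : ι} (hik : i ≠ k) (hil : i ≠ l) (hkl : k ≠ l)
    (fi : f (F.a i) = c) (fk : f (F.a k) = c) (fl : f (F.a l) = c)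
    (gi : g (F.a i) = c') (gk : g (F.a k) = c') (gl : g (F.a l) = c') : False := by
  obtain ⟨s, hs, h⟩ := exists_rel ![F.a i - F.a l, F.a k - F.a l, z - F.a l, F.o - F.a l]
  simp only [Matrix.cons_val_zero, Matrix.cons_val_one, Matrix.cons_val] at h
  have ho := F.ho g c' hg
  have hg0 := congrArg g h
  simp only [map_add, map_smul, map_sub, smul_eq_mul, map_zero, gi, gk, gl, hz] at hg0
  have h3 : s 3 = 0 := by
    have : s 3 * (g F.o - c') = 0 := by linarith
    rcases mul_eq_zero.mp this with h' | h'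
    · exact h'
    · linarith
  have hf0 := congrArg f h
  simp only [map_add, map_smul, map_sub, smul_eq_mul, map_zero, fi, fk, fl, h3] at hf0
  have h2 : s 2 = 0 := by
    have : s 2 * (f z - c) = 0 := by linarith
    rcases mul_eq_zero.mp this with h' | h'
    · exact h'
    · exact absurd (by linarith) hz'
  rw [h2, h3, zero_smul, zero_smul, add_zero, add_zero] at h
  refine F.not_collinear hik hil hkl ?_ h
  by_contra hcon
  push Not at hcon
  apply hs
  funext m
  fin_cases m
  · exact hcon.1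
  · exact hcon.2
  · exact h2
  · exact h3

/-- Of three `a`s and three `x`s, one `a` and two `x`s are in a common supporting plane. -/
theorem exists_bad {i j : Fin 3 → ι} (hi : Function.Injective i)
    (hij : ∀ m n, i m ≠ j n) :
    ∃ m n n', n ≠ n' ∧ F.Bad (j n) (j n') (i m) := by
  obtain ⟨m, m', n, n', hm, hn, α, β, γ, δ, hα, hβ, hγ, hδ, hpos, h⟩ :=
    crossing (fun m => F.a (i m) - F.o) (fun n => F.x (j n) - F.o)
  obtain ⟨f, c, hf, f1, f2⟩ := F.adj (j n) (i m) (hij m n).symm
  obtain ⟨g, d, hg, g1, g2⟩ := F.adj (j n') (i m') (hij m' n').symm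
  have hfo := F.ho f c hf
  have hgo := F.ho g d hg
  have fa := F.ha f c hf (i m')
  have fx := F.hx f c hf (j n')
  have ga := F.ha g d hg (i m)
  have gx := F.hx g d hg (j n)
  have e1 := congrArg f h
  have e2 := congrArg g h
  simp only [map_add, map_smul, map_sub, smul_eq_mul, f1, f2, g1, g2] at e1 e2
  have le1 : α + β ≤ γ + δ := by
    by_contra hcon
    push Not at hcon
    have h1 := mul_pos (sub_pos.mpr hcon) (sub_pos.mpr hfo)
    have h2 := mul_le_mul_of_nonneg_left fa hγ
    have h3 := mul_le_mul_of_nonneg_left fx hδ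
    have h4 : (α + β - (γ + δ)) * (c - f F.o) =
      α * (c - f F.o) + β * (c - f F.o) - γ * c - δ * c + (γ + δ) * f F.o := by ring
    have h5 : γ * (f (F.a (i m')) - f F.o) + δ * (f (F.x (j n')) - f F.o) =
      γ * f (F.a (i m')) + δ * f (F.x (j n')) - (γ + δ) * f F.o := by ring
    linarith
  have le2 : γ + δ ≤ α + β := by
    by_contra hcon
    push Not at hcon
    have h1 := mul_pos (sub_pos.mpr hcon) (sub_pos.mpr hgo)
    have h2 := mul_le_mul_of_nonneg_left ga hα
    have h3 := mul_le_mul_of_nonneg_left gx hβ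
    have h4 : (γ + δ - (α + β)) * (d - g F.o) =
      γ * (d - g F.o) + δ * (d - g F.o) - α * d - β * d + (α + β) * g F.o := by ring
    have h5 : α * (g (F.a (i m)) - g F.o) + β * (g (F.x (j n)) - g F.o) =
      α * g (F.a (i m)) + β * g (F.x (j n)) - (α + β) * g F.o := by ring
    linarith
  by_cases hδ0 : 0 < δ
  · refine ⟨m, n, n', hn, f, c, hf, f1, ?_, f2⟩
    have : δ * (c - f (F.x (j n'))) ≤ 0 := by
      have h6 : 0 ≤ γ * (c - f (F.a (i m'))) := mul_nonneg hγ (by linarith)
      have h7 : (α + β) * (c - f F.o) = (γ + δ) * (c - f F.o) := by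
        rw [le_antisymm le1 le2]
      have h8 : γ * (f (F.a (i m')) - f F.o) + δ * (f (F.x (j n')) - f F.o) =
        (γ + δ) * (c - f F.o) - γ * (c - f (F.a (i m'))) - δ * (c - f (F.x (j n'))) := by ring
      linarith
    by_contra hcon
    have h7 : 0 < c - f (F.x (j n')) := by
      rcases lt_or_eq_of_le fx with h8 | h8
      · linarith
      · exact absurd h8 hcon
    have := mul_pos hδ0 h7
    linarith
  by_cases hβ0 : 0 < β
  · refine ⟨m', n', n, hn.symm, g, d, hg, g1, ?_, g2⟩
    have : β * (d - g (F.x (j n))) ≤ 0 := by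
      have h6 : 0 ≤ α * (d - g (F.a (i m))) := mul_nonneg hα (by linarith)
      have h7 : (α + β) * (d - g F.o) = (γ + δ) * (d - g F.o) := by
        rw [le_antisymm le1 le2]
      have h8 : α * (g (F.a (i m)) - g F.o) + β * (g (F.x (j n)) - g F.o) =
        (α + β) * (d - g F.o) - α * (d - g (F.a (i m))) - β * (d - g (F.x (j n))) := by ring
      linarith
    by_contra hcon
    have h7 : 0 < d - g (F.x (j n)) := by
      rcases lt_or_eq_of_le gx with h8 | h8
      · linarith
      · exact absurd h8 hcon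
    have := mul_pos hβ0 h7
    linarith
  exfalso
  have hδ' : δ = 0 := by linarith
  have hβ' : β = 0 := by linarith
  have hαγ : α = γ := by linarith
  have hγ0 : γ ≠ 0 := by
    intro h0
    rw [hαγ, hδ', hβ', h0] at hpos
    simp at hpos
  rw [hδ', hβ', hαγ, zero_smul, zero_smul, add_zero, add_zero] at h
  have h9 := smul_right_injective E3 hγ0 h
  exact F.a_ne (hi.ne hm) (sub_left_injective h9)

/-- Uniqueness of the supporting plane through three points which are not collinear. -/
theorem plane_unique {p q y z : E3} {g h : E3 →ₗ[ℝ] ℝ} {c c' : ℝ} (hh : F.Sp h c')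
    (hpq : p ≠ q) (hy : ∀ t : ℝ, y - p ≠ t • (q - p))
    (gp : g p = c) (gq : g q = c) (gy : g y = c)
    (hp : h p = c') (hq : h q = c') (hy' : h y = c') (hz : h z = c') : g z = c := by
  obtain ⟨s, hs, hrel⟩ := exists_rel ![q - p, y - p, z - p, F.o - p]
  simp only [Matrix.cons_val_zero, Matrix.cons_val_one, Matrix.cons_val] at hrel
  have ho := F.ho h c' hh
  have e1 := congrArg h hrel
  simp only [map_add, map_smul, map_sub, smul_eq_mul, map_zero, hp, hq, hy', hz] at e1
  have h3 : s 3 = 0 := by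
    have : s 3 * (h F.o - c') = 0 := by linarith
    rcases mul_eq_zero.mp this with h' | h'
    · exact h'
    · linarith
  rw [h3, zero_smul, add_zero] at hrel
  have h2 : s 2 ≠ 0 := by
    intro h2
    rw [h2, zero_smul, add_zero] at hrel
    have h1 : s 1 = 0 := by
      by_contra h1
      refine hy (-(s 1)⁻¹ * s 0) ?_
      have : (s 1)⁻¹ • (s 0 • (q - p) + s 1 • (y - p)) = 0 := by rw [hrel, smul_zero]
      rw [smul_add, smul_smul, smul_smul, inv_mul_cancel₀ h1, one_smul] at this
      rw [eq_neg_of_add_eq_zero_right this]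
      module
    rw [h1, zero_smul, add_zero] at hrel
    have h0 : s 0 = 0 := by
      rcases smul_eq_zero.mp hrel with h' | h'
      · exact h'
      · exact absurd (sub_eq_zero.mp h').symm hpq
    apply hs
    funext m
    fin_cases m
    · exact h0
    · exact h1
    · exact h2
    · exact h3
  have e2 := congrArg g hrel
  simp only [map_add, map_smul, map_sub, smul_eq_mul, map_zero, gp, gq, gy] at e2
  have : s 2 * (g z - c) = 0 := by linarith
  rcases mul_eq_zero.mp this with h' | h'
  · exact absurd h' h2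
  · linarith

/-- Of three points in supporting planes through `p` and `q`, two are in one such plane. -/
theorem three_planes {p q : E3} (hpq : p ≠ q) {g1 g2 g3 : E3 →ₗ[ℝ] ℝ} {c1 c2 c3 : ℝ}
    {i1 i2 i3 : ι} (hg1 : F.Sp g1 c1) (hg2 : F.Sp g2 c2) (hg3 : F.Sp g3 c3)
    (p1 : g1 p = c1) (p2 : g2 p = c2) (p3 : g3 p = c3)
    (q1 : g1 q = c1) (q2 : g2 q = c2) (q3 : g3 q = c3)
    (a1 : g1 (F.a i1) = c1) (a2 : g2 (F.a i2) = c2) (a3 : g3 (F.a i3) = c3) :
    g1 (F.a i2) = c1 ∨ g1 (F.a i3) = c1 ∨ g2 (F.a i1) = c2 ∨ g2 (F.a i3) = c2 ∨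
      g3 (F.a i1) = c3 ∨ g3 (F.a i2) = c3 := by
  obtain ⟨s, hs, hrel⟩ := exists_rel ![F.a i1 - p, F.a i2 - p, F.a i3 - p, q - p]
  simp only [Matrix.cons_val_zero, Matrix.cons_val_one, Matrix.cons_val] at hrel
  by_contra hcon
  push Not at hcon
  obtain ⟨n01, n02, n10, n12, n20, n21⟩ := hcon
  have lt01 := lt_of_le_of_ne (F.ha g1 c1 hg1 i2) n01
  have lt02 := lt_of_le_of_ne (F.ha g1 c1 hg1 i3) n02
  have lt10 := lt_of_le_of_ne (F.ha g2 c2 hg2 i1) n10
  have lt12 := lt_of_le_of_ne (F.ha g2 c2 hg2 i3) n12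
  have lt20 := lt_of_le_of_ne (F.ha g3 c3 hg3 i1) n20
  have lt21 := lt_of_le_of_ne (F.ha g3 c3 hg3 i2) n21
  have e0 := congrArg g1 hrel
  have e1 := congrArg g2 hrel
  have e2 := congrArg g3 hrel
  simp only [map_add, map_smul, map_sub, smul_eq_mul, map_zero, p1, q1, a1] at e0
  simp only [map_add, map_smul, map_sub, smul_eq_mul, map_zero, p2, q2, a2] at e1
  simp only [map_add, map_smul, map_sub, smul_eq_mul, map_zero, p3, q3, a3] at e2
  have h0 : s 0 = 0 := by
    rcases lt_trichotomy (s 0) 0 with h | h | h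
    · exfalso
      have t1 := mul_pos_of_neg_of_neg h (sub_neg.mpr lt10)
      have t2 := mul_pos_of_neg_of_neg h (sub_neg.mpr lt20)
      have s2 : 0 < s 2 := by
        by_contra hc
        push Not at hc
        have := mul_nonneg_of_nonpos_of_nonpos hc (sub_neg.mpr lt12).le
        linarith
      have s1 : 0 < s 1 := by
        by_contra hc
        push Not at hc
        have := mul_nonneg_of_nonpos_of_nonpos hc (sub_neg.mpr lt21).le
        linarith
      have := mul_neg_of_pos_of_neg s1 (sub_neg.mpr lt01)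
      have := mul_neg_of_pos_of_neg s2 (sub_neg.mpr lt02)
      linarith
    · exact h
    · exfalso
      have t1 := mul_neg_of_pos_of_neg h (sub_neg.mpr lt10)
      have t2 := mul_neg_of_pos_of_neg h (sub_neg.mpr lt20)
      have s2 : s 2 < 0 := by
        by_contra hc
        push Not at hc
        have := mul_nonpos_of_nonneg_of_nonpos hc (sub_neg.mpr lt12).le
        linarith
      have s1 : s 1 < 0 := by
        by_contra hc
        push Not at hc
        have := mul_nonpos_of_nonneg_of_nonpos hc (sub_neg.mpr lt21).le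
        linarith
      have := mul_pos_of_neg_of_neg s1 (sub_neg.mpr lt01)
      have := mul_pos_of_neg_of_neg s2 (sub_neg.mpr lt02)
      linarith
  rw [h0, zero_mul, zero_add] at e1 e2
  have h2 : s 2 = 0 := by
    have : s 2 * (g2 (F.a i3) - c2) = 0 := by linarith
    rcases mul_eq_zero.mp this with h | h
    · exact h
    · linarith
  have h1 : s 1 = 0 := by
    have : s 1 * (g3 (F.a i2) - c3) = 0 := by linarith
    rcases mul_eq_zero.mp this with h | h
    · exact h
    · linarith
  rw [h0, h1, h2, zero_smul, zero_smul, zero_smul, zero_add, zero_add, zero_add] at hrel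
  have h3 : s 3 = 0 := by
    rcases smul_eq_zero.mp hrel with h | h
    · exact h
    · exact absurd (sub_eq_zero.mp h).symm hpq
  apply hs
  funext m
  fin_cases m
  · exact h0
  · exact h1
  · exact h2
  · exact h3

/-- The bad points of a pair are covered by two supporting planes. -/
theorem cover (j l : ι) (hjl : j ≠ l) (hne : ∃ i, F.Bad j l i) :
    ∃ g1 c1 g2 c2, F.Sp g1 c1 ∧ F.Sp g2 c2 ∧ g1 (F.x j) = c1 ∧ g2 (F.x j) = c2 ∧
      ∀ i, F.Bad j l i → g1 (F.a i) = c1 ∨ g2 (F.a i) = c2 := by
  have hpq := F.x_ne hjl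
  by_cases hall : ∀ i, F.Bad j l i → ∃ t : ℝ, F.a i - F.x j = t • (F.x l - F.x j)
  · obtain ⟨i, g, c, hg, g1, g2, g3⟩ := hne
    refine ⟨g, c, g, c, hg, hg, g1, g1, fun k hk => Or.inl ?_⟩
    obtain ⟨t, ht⟩ := hall k hk
    have := congrArg g ht
    simp only [map_sub, map_smul, g1, g2, smul_eq_mul, sub_self, mul_zero] at this
    linarith
  push Not at hall
  obtain ⟨i1, ⟨g1, c1, hg1, g1p, g1q, g1y⟩, hy1⟩ := hall
  by_cases h1 : ∀ i, F.Bad j l i → g1 (F.a i) = c1
  · exact ⟨g1, c1, g1, c1, hg1, hg1, g1p, g1p, fun k hk => Or.inl (h1 k hk)⟩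
  push Not at h1
  obtain ⟨i2, ⟨g2, c2, hg2, g2p, g2q, g2y⟩, hy2⟩ := h1
  have hy2' : ∀ t : ℝ, F.a i2 - F.x j ≠ t • (F.x l - F.x j) := by
    intro t ht
    have := congrArg g1 ht
    simp only [map_sub, map_smul, g1p, g1q, smul_eq_mul, sub_self, mul_zero] at this
    exact hy2 (by linarith)
  refine ⟨g1, c1, g2, c2, hg1, hg2, g1p, g2p, ?_⟩
  rintro i3 ⟨g3, c3, hg3, g3p, g3q, g3y⟩
  rcases F.three_planes hpq hg1 hg2 hg3 g1p g2p g3p g1q g2q g3q g1y g2y g3y with
    h | h | h | h | h | h
  · exact absurd h hy2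
  · exact Or.inl h
  · exact absurd (F.plane_unique hg2 hpq hy1 g1p g1q g1y g2p g2q h g2y) hy2
  · exact Or.inr h
  · exact Or.inl (F.plane_unique hg3 hpq hy1 g1p g1q g1y g3p g3q h g3y)
  · exact Or.inr (F.plane_unique hg3 hpq hy2' g2p g2q g2y g3p g3q h g3y)

open Classical in
/-- If every supporting plane through one of the three `x`s contains at most `M` of the `a`s, then
there are at most `6 M + 5` of them. -/
theorem count (S : Finset ι) (j : Fin 3 → ι) (hj : Function.Injective j) (M : ℕ)
    (hM : ∀ g c, F.Sp g c → ∀ n, g (F.x (j n)) = c → (S.filter fun i => g (F.a i) = c).card ≤ M) :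
    S.card ≤ 6 * M + 5 := by
  have hcov : ∀ n n' : Fin 3, n ≠ n' → (S.filter fun i => F.Bad (j n) (j n') i).card ≤ 2 * M := by
    intro n n' hn
    by_cases hne : ∃ i, F.Bad (j n) (j n') i
    · obtain ⟨g1, c1, g2, c2, hg1, hg2, h1, h2, hcov⟩ := F.cover (j n) (j n') (hj.ne hn) hne
      have hsub : (S.filter fun i => F.Bad (j n) (j n') i) ⊆
          (S.filter fun i => g1 (F.a i) = c1) ∪ (S.filter fun i => g2 (F.a i) = c2) := by
        intro i hi
        rw [mem_filter] at hi
        rw [mem_union, mem_filter, mem_filter]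
        rcases hcov i hi.2 with h | h
        · exact Or.inl ⟨hi.1, h⟩
        · exact Or.inr ⟨hi.1, h⟩
      have := card_le_card hsub
      have h3 := card_union_le (S.filter fun i => g1 (F.a i) = c1)
        (S.filter fun i => g2 (F.a i) = c2)
      have h4 := hM g1 c1 hg1 n h1
      have h5 := hM g2 c2 hg2 n h2
      omega
    · have : (S.filter fun i => F.Bad (j n) (j n') i) = ∅ := by
        rw [filter_eq_empty_iff]
        intro i _ hi
        exact hne ⟨i, hi⟩
      rw [this]
      simp
  have hsymm : ∀ n n' i, F.Bad (j n) (j n') i → F.Bad (j n') (j n) i := by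
    rintro n n' i ⟨f, c, h1, h2, h3, h4⟩
    exact ⟨f, c, h1, h3, h2, h4⟩
  set B01 := S.filter fun i => F.Bad (j 0) (j 1) i with hB01
  set B02 := S.filter fun i => F.Bad (j 0) (j 2) i with hB02
  set B12 := S.filter fun i => F.Bad (j 1) (j 2) i with hB12
  have h01 : B01.card ≤ 2 * M := hcov 0 1 (by decide)
  have h02 : B02.card ≤ 2 * M := hcov 0 2 (by decide)
  have h12 : B12.card ≤ 2 * M := hcov 1 2 (by decide)
  set J : Finset ι := univ.image j with hJ
  have hJc : J.card ≤ 3 := by
    have := card_image_le (s := (univ : Finset (Fin 3))) (f := j)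
    simpa using this
  set R := S \ (J ∪ B01 ∪ B02 ∪ B12) with hR
  have hRc : R.card ≤ 2 := by
    by_contra hcon
    push Not at hcon
    obtain ⟨i0, i1, i2, m0, m1, m2, d01, d02, d12⟩ := Finset.two_lt_card_iff.mp hcon
    have hnot : ∀ i ∈ R, ∀ n n', n ≠ n' → ¬ F.Bad (j n) (j n') i := by
      intro i hi n n' hn hbad
      rw [hR, mem_sdiff] at hi
      apply hi.2
      simp only [mem_union, hB01, hB02, hB12, mem_filter]
      fin_cases n <;> fin_cases n'
      · exact absurd rfl hn
      · exact Or.inl (Or.inl (Or.inr ⟨hi.1, hbad⟩))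
      · exact Or.inl (Or.inr ⟨hi.1, hbad⟩)
      · exact Or.inl (Or.inl (Or.inr ⟨hi.1, hsymm _ _ _ hbad⟩))
      · exact absurd rfl hn
      · exact Or.inr ⟨hi.1, hbad⟩
      · exact Or.inl (Or.inr ⟨hi.1, hsymm _ _ _ hbad⟩)
      · exact Or.inr ⟨hi.1, hsymm _ _ _ hbad⟩
      · exact absurd rfl hn
    have hJR : ∀ i ∈ R, ∀ n, i ≠ j n := by
      intro i hi n h
      rw [hR, mem_sdiff] at hi
      apply hi.2
      rw [h]
      simp [hJ]
    obtain ⟨m, n, n', hn, hbad⟩ := F.exists_bad (i := ![i0, i1, i2]) (j := j)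
      (inj3 d01 d02 d12) (fun m n => hJR _ (mem3 m0 m1 m2 m) n)
    exact hnot _ (mem3 m0 m1 m2 m) n n' hn hbad
  have hS : S ⊆ R ∪ (J ∪ B01 ∪ B02 ∪ B12) := by
    intro i hi
    by_cases h : i ∈ J ∪ B01 ∪ B02 ∪ B12
    · exact mem_union_right _ h
    · exact mem_union_left _ (mem_sdiff.mpr ⟨hi, h⟩)
  have c1 := card_le_card hS
  have c2 := card_union_le R (J ∪ B01 ∪ B02 ∪ B12)
  have c3 := card_union_le (J ∪ B01 ∪ B02) B12
  have c4 := card_union_le (J ∪ B01) B02
  have c5 := card_union_le J B01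
  omega

open Classical in
/-- A supporting plane contains at most `17` of the `a`s. -/
theorem plane_le (S : Finset ι) (f : E3 →ₗ[ℝ] ℝ) (c : ℝ) (hf : F.Sp f c)
    (hS : ∀ i ∈ S, f (F.a i) = c) : S.card ≤ 17 := by
  by_cases h3 : S.card ≤ 2
  · omega
  push Not at h3
  obtain ⟨j0, j1, j2, m0, m1, m2, d01, d02, d12⟩ := Finset.two_lt_card_iff.mp h3
  refine F.count S ![j0, j1, j2] (inj3 d01 d02 d12) 2 ?_
  · intro g c' hg n hn
    have hmem := mem3 m0 m1 m2 n
    by_contra hcon
    push Not at hcon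
    obtain ⟨i0, i1, i2, n0, n1, n2, e01, e02, e12⟩ := Finset.two_lt_card_iff.mp hcon
    rw [mem_filter] at n0 n1 n2
    refine F.two_planes hg hn (fun h => F.sep _ f c hf h (hS _ hmem)) e01 e02 e12
      (hS _ n0.1) (hS _ n1.1) (hS _ n2.1) n0.2 n1.2 n2.2

include F in
theorem card_le [Fintype ι] : Fintype.card ι ≤ 107 := by
  classical
  by_cases h3 : Fintype.card ι ≤ 2
  · omega
  push Not at h3
  rw [← Finset.card_univ] at h3 ⊢
  obtain ⟨j0, j1, j2, m0, m1, m2, d01, d02, d12⟩ := Finset.two_lt_card_iff.mp h3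
  refine F.count univ ![j0, j1, j2] (inj3 d01 d02 d12) 17 ?_
  · intro g c hg n hn
    exact F.plane_le _ g c hg fun i hi => (mem_filter.mp hi).2

end Fam

end Pool.Agent.R771.Illum
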